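import Pool.Agent.Helper65.LG.Defs

/-! Project LG, package L2c: the children of a cylinder. -/

set_option autoImplicit false

open Finset Filter Topology

namespace Pool.Agent.Helper38.LG

open Pool.Agent.Helper65.LG

/-- `m i = b i * d i` with `b i` coprime to `d` -/
theorem exists_b (G : GMap) {i : ℕ} (hi : i < G.d) :
    ∃ b : ℤ, G.m i = b * (dd G i : ℤ) ∧ IsCoprime b (G.d : ℤ) := by
  have hm := G.hm i hi
  have hM : (G.m i).natAbs ≠ 0 := Int.natAbs_ne_zero.2 hm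
  have hd0 : G.d ≠ 0 := by have := G.hd; omega
  obtain ⟨M, hMdef⟩ : ∃ M : ℕ, M = (G.m i).natAbs := ⟨_, rfl⟩
  rw [← hMdef] at hM
  have hD : dd G i = M.gcd (G.d ^ M) := by rw [hMdef]; rfl
  obtain ⟨c, hc⟩ : dd G i ∣ M := hD ▸ Nat.gcd_dvd_left _ _
  have hdd0 : dd G i ≠ 0 := by
    rintro h0
    rw [h0, zero_mul] at hc
    exact hM hc
  have hc0 : c ≠ 0 := by
    rintro rfl
    rw [mul_zero] at hc
    exact hM hc
  have hcop : Nat.Coprime c G.d := by
    rw [Nat.coprime_iff_gcd_eq_one]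
    by_contra hg
    obtain ⟨p, hp, hpg⟩ := Nat.exists_prime_and_dvd hg
    have hpc : p ∣ c := hpg.trans (Nat.gcd_dvd_left _ _)
    have hpd : p ∣ G.d := hpg.trans (Nat.gcd_dvd_right _ _)
    have h1 : (dd G i).factorization p = M.factorization p := by
      rw [hD, Nat.factorization_gcd hM (pow_ne_zero _ hd0), Nat.factorization_pow]
      rw [Finsupp.inf_apply, Finsupp.smul_apply, smul_eq_mul]
      refine min_eq_left ?_
      have h2 := Nat.factorization_lt p hM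
      have h3 := hp.factorization_pos_of_dvd hd0 hpd
      nlinarith
    have h4 : M.factorization p = (dd G i).factorization p + c.factorization p := by
      rw [hc, Nat.factorization_mul hdd0 hc0, Finsupp.add_apply]
    have h5 := hp.factorization_pos_of_dvd hc0 hpc
    omega
  rcases Int.natAbs_eq (G.m i) with h | h
  · refine ⟨c, ?_, ?_⟩
    · rw [h, ← hMdef, hc]; push_cast; ring
    · exact_mod_cast Nat.isCoprime_iff_coprime.2 hcop
  · refine ⟨-c, ?_, ?_⟩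
    · rw [h, ← hMdef, hc]; push_cast; ring
    · exact (Nat.isCoprime_iff_coprime.2 hcop).neg_left

theorem mem_self (G : GMap) (B : ℕ × ℕ) : (B.1 : ℤ) ∈ cls G B := Int.ModEq.refl _

theorem mem_add (G : GMap) {B : ℕ × ℕ} {y : ℤ} (hy : y ∈ cls G B) (t : ℤ) :
    y + ((G.d * B.2 : ℕ) : ℤ) * t ∈ cls G B := by
  have h1 : y + ((G.d * B.2 : ℕ) : ℤ) * t ≡ y [ZMOD ((G.d * B.2 : ℕ) : ℤ)] := by
    rw [Int.modEq_iff_dvd]
    exact ⟨-t, by ring⟩
  exact h1.trans hy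

/-- PACKAGE L2c -/
theorem step3 (h1 : S_step1) : S_step3 := by
  intro G B hk hB B' hS y0 b hy0 hb
  obtain ⟨s1, s2, s3, s4⟩ := h1 G B hk hB
  have hd0 : 0 < G.d := by have := G.hd; omega
  have hdz : (G.d : ℤ) ≠ 0 := by exact_mod_cast hd0.ne'
  obtain ⟨bi, hbi, hbc⟩ := exists_b G (Nat.mod_lt B.1 hd0)
  obtain ⟨k', hk'⟩ : ∃ k' : ℕ, k' = kk G B := ⟨_, rfl⟩
  obtain ⟨g, hg⟩ : ∃ g : ℕ, g = gg G B := ⟨_, rfl⟩
  obtain ⟨e1, e2, e3⟩ := hS
  rw [← hk'] at e1 s3 s4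
  rw [← hg] at s4
  have hgd : g ∣ G.d := by rw [hg]; exact Nat.gcd_dvd_right _ _
  obtain ⟨q, hq⟩ := hgd
  have hg0 : 0 < g := by
    rcases Nat.eq_zero_or_pos g with h | h
    · rw [h, zero_mul] at hq; omega
    · exact h
  have hqd : G.d / g = q := by rw [hq]; exact Nat.mul_div_cancel_left q hg0
  rw [← hg, hqd]
  -- the map on the cylinder
  have hmk : G.m (B.1 % G.d) * (B.2 : ℤ) = bi * ((g : ℤ) * k') := by
    rw [hbi]
    have h4 : ((g * k' : ℕ) : ℤ) = ((B.2 * dd G (B.1 % G.d) : ℕ) : ℤ) := by rw [s4]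
    push_cast at h4
    rw [h4]; ring
  have hT : ∀ y ∈ cls G B, ∀ t : ℤ, T G (y + ((G.d * B.2 : ℕ) : ℤ) * t) =
      T G y + bi * ((g : ℤ) * k') * t := by
    intro y hy t
    have h2 := s1 _ (mem_add G hy t)
    have h3 := s1 _ hy
    have h5 : (G.d : ℤ) * T G (y + ((G.d * B.2 : ℕ) : ℤ) * t) =
        (G.d : ℤ) * (T G y + bi * ((g : ℤ) * k') * t) := by
      push_cast at h2 ⊢
      linear_combination h2 - h3 + ((G.d : ℤ) * t) * hmk
    exact mul_left_cancel₀ hdz h5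
  -- the value at `y0`
  obtain ⟨u, hu⟩ : ∃ u : ℤ, T G y0 = B'.1 + (g : ℤ) * k' * u := by
    obtain ⟨s, hs⟩ := (Int.modEq_iff_dvd.1 hy0)
    have h6 : (B.1 : ℤ) = y0 + ((G.d * B.2 : ℕ) : ℤ) * s := by linarith
    have h7 := hT y0 hy0 s
    rw [← h6] at h7
    rw [← s4] at e3
    obtain ⟨v, hv⟩ := (Int.modEq_iff_dvd.1 e3)
    refine ⟨-v - bi * s, ?_⟩
    push_cast at hv
    linear_combination -h7 + (-1 : ℤ) * hv
  have hbb : IsCoprime (bi * b) (G.d : ℤ) := hbc.mul_left hb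
  have hbb' := hbb.symm
  obtain ⟨c, e, hce⟩ := hbb
  have hqq : IsCoprime (q : ℤ) (bi * b) := by
    have h8 : (q : ℤ) ∣ (G.d : ℤ) := ⟨g, by rw [hq]; push_cast; ring⟩
    exact hbb'.of_isCoprime_of_dvd_left h8
  obtain ⟨t0, ht0⟩ : ∃ t0 : ℤ, t0 = -(u * c) := ⟨_, rfl⟩
  have hut : u + bi * b * t0 = (G.d : ℤ) * (u * e) := by
    rw [ht0]
    linear_combination (-u) * hce
  -- the values
  have hval : ∀ t : ℤ, T G (y0 + ((G.d * B.2 : ℕ) : ℤ) * b * t) =
      B'.1 + (g : ℤ) * k' * (u + bi * b * t) := by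
    intro t
    have h9 := hT y0 hy0 (b * t)
    rw [mul_assoc, h9, hu]
    ring
  have hk'0 : (0 : ℤ) < k' := by exact_mod_cast s3
  have hiff : ∀ t : ℤ, nxt G B (y0 + ((G.d * B.2 : ℕ) : ℤ) * b * t) = B' ↔ (q : ℤ) ∣ t - t0 := by
    intro t
    have hdk : (0 : ℤ) < ((G.d * k' : ℕ) : ℤ) := by
      have : 0 < G.d * k' := Nat.mul_pos hd0 s3
      exact_mod_cast this
    have i1 : nxt G B (y0 + ((G.d * B.2 : ℕ) : ℤ) * b * t) = B' ↔
        T G (y0 + ((G.d * B.2 : ℕ) : ℤ) * b * t) ≡ (B'.1 : ℤ) [ZMOD ((G.d * k' : ℕ) : ℤ)] := by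
      unfold nxt
      rw [← hk', Prod.ext_iff]
      simp only [e1, and_true]
      have hB'1 : (B'.1 : ℤ) % ((G.d * k' : ℕ) : ℤ) = B'.1 := by
        refine Int.emod_eq_of_lt (by positivity) ?_
        rw [e1] at e2
        exact_mod_cast e2
      constructor
      · intro h
        have h10 : ((T G (y0 + ((G.d * B.2 : ℕ) : ℤ) * b * t) % ((G.d * k' : ℕ) : ℤ)).toNat : ℤ) =
            (B'.1 : ℤ) := by rw [h]
        rw [Int.toNat_of_nonneg (Int.emod_nonneg _ hdk.ne')] at h10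
        show _ % _ = _ % _
        rw [h10, hB'1]
      · intro h
        have h10 : T G (y0 + ((G.d * B.2 : ℕ) : ℤ) * b * t) % ((G.d * k' : ℕ) : ℤ) = (B'.1 : ℤ) := by
          rw [h, hB'1]
        rw [h10, Int.toNat_natCast]
    rw [i1, hval, Int.modEq_iff_dvd]
    have hg0' : (0 : ℤ) < g := by exact_mod_cast hg0
    have i2 : ((G.d * k' : ℕ) : ℤ) = ((g : ℤ) * k') * q := by
      rw [hq]; push_cast; ring
    have i3 : (B'.1 : ℤ) - (B'.1 + (g : ℤ) * k' * (u + bi * b * t)) =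
        ((g : ℤ) * k') * (-(u + bi * b * t)) := by ring
    rw [i2, i3, mul_dvd_mul_iff_left (mul_pos hg0' hk'0).ne', dvd_neg]
    have i4 : u + bi * b * t = (q : ℤ) * (g * (u * e)) + bi * b * (t - t0) := by
      have : (G.d : ℤ) = (g : ℤ) * q := by rw [hq]; push_cast; ring
      rw [this] at hut
      linear_combination hut
    rw [i4, dvd_add_right (dvd_mul_right _ _)]
    exact ⟨fun h => hqq.dvd_of_dvd_mul_left h, fun h => h.mul_left _⟩
  have hval2 : ∀ t : ℤ, T G (y0 + ((G.d * B.2 : ℕ) : ℤ) * b * (t0 + (q : ℤ) * t)) =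
      T G (y0 + ((G.d * B.2 : ℕ) : ℤ) * b * t0) + ((G.d * B'.2 : ℕ) : ℤ) * (bi * b) * t := by
    intro t
    rw [hval, hval, e1, hq]
    push_cast
    ring
  refine ⟨t0, T G (y0 + ((G.d * B.2 : ℕ) : ℤ) * b * t0), bi * b, ?_, ⟨c, e, hce⟩, hiff, hval2⟩
  have h11 : y0 + ((G.d * B.2 : ℕ) : ℤ) * b * t0 ∈ cls G B := by
    rw [mul_assoc]; exact mem_add G hy0 _
  have h12 := (s2 _ h11).2
  rwa [(hiff t0).2 (by rw [sub_self]; exact dvd_zero _)] at h12

end Pool.Agent.Helper38.LG
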