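import Pool.Agent.Helper65.LG.Defs

/-! Project LG, package L4: growth of the orbit. -/

set_option autoImplicit false

open Finset Filter Topology

namespace Pool.Agent.Helper38.LG

open Pool.Agent.Helper65.LG

/-- the path stays in the class -/
theorem path (h1 : S_step1) (G : GMap) {C : Finset (ℕ × ℕ)} (hC : IsClass G C) {B : ℕ × ℕ}
    (hB : B ∈ C) {x : ℤ} (hx : x ∈ cls G B) (l : ℕ) :
    Y G B x l ∈ C ∧ (T G)^[l] x ∈ cls G (Y G B x l) := by
  induction l with
  | zero => exact ⟨hB, hx⟩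
  | succ l ih =>
    obtain ⟨i1, i2⟩ := ih
    obtain ⟨j1, j2⟩ := hC.state _ i1
    obtain ⟨-, s2, -, -⟩ := h1 G (Y G B x l) j1 j2
    obtain ⟨k1, k2⟩ := s2 _ i2
    refine ⟨hC.closed _ i1 _ k1, ?_⟩
    rw [Function.iterate_succ_apply']
    exact k2

theorem abs_log_one_sub {u : ℝ} (h : |u| ≤ 1 / 2) : |Real.log (1 - u)| ≤ 2 * |u| := by
  have h1 := abs_le.1 h
  have hp : 0 < 1 - u := by linarith [h1.2]
  have h2 := Real.log_le_sub_one_of_pos hp
  have h3 := Real.one_sub_inv_le_log_of_pos hp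
  have h4 : 1 - (1 - u)⁻¹ = -(u / (1 - u)) := by
    field_simp
    ring
  have h5 : u / (1 - u) ≤ 2 * |u| := by
    rw [div_le_iff₀ hp]
    rcases le_total 0 u with hu | hu
    · rw [abs_of_nonneg hu] at h ⊢
      nlinarith
    · rw [abs_of_nonpos hu]
      nlinarith
  rw [abs_le]
  constructor
  · rw [h4] at h3
    linarith
  · have := neg_abs_le u
    have := abs_nonneg u
    linarith

/-- one step -/
theorem step_log {d m r y z : ℝ} (hd : 0 < d) (hm : 1 ≤ |m|) (hz : d * z = m * y - r)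
    {R : ℝ} (hR : |r| ≤ R) (hy : 2 * R ≤ |y|) (hR0 : 0 < R) :
    z ≠ 0 ∧ |Real.log |z| - (Real.log (|m| / d) + Real.log |y|)| ≤ 2 * (R / |y|) := by
  have hy0 : 0 < |y| := by linarith
  have hm0 : 0 < |m| := by linarith
  have hyn : y ≠ 0 := abs_pos.1 hy0
  have hmn : m ≠ 0 := abs_pos.1 hm0
  have hu : |r / (m * y)| ≤ R / |y| := by
    rw [abs_div, abs_mul]
    have h1 : |r| / (|m| * |y|) ≤ |r| / |y| := by
      apply div_le_div_of_nonneg_left (abs_nonneg _) hy0
      nlinarith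
    exact h1.trans (div_le_div_of_nonneg_right hR hy0.le)
  have hu2 : R / |y| ≤ 1 / 2 := by
    rw [div_le_iff₀ hy0]; linarith
  have hl := abs_log_one_sub (hu.trans hu2)
  have h1 := abs_le.1 (hu.trans hu2)
  have hp : 0 < 1 - r / (m * y) := by linarith [h1.2]
  have e : z = m / d * y * (1 - r / (m * y)) := by
    field_simp
    linarith
  have hz0 : z ≠ 0 := by
    rw [e]
    exact mul_ne_zero (mul_ne_zero (div_ne_zero hmn hd.ne') hyn) hp.ne'
  refine ⟨hz0, ?_⟩
  have e2 : |z| = |m| / d * |y| * (1 - r / (m * y)) := by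
    conv_lhs => rw [e]
    rw [abs_mul, abs_mul, abs_div, abs_of_pos hd, abs_of_pos hp]
  have hmd : 0 < |m| / d := div_pos hm0 hd
  rw [e2, Real.log_mul (mul_pos hmd hy0).ne' hp.ne', Real.log_mul hmd.ne' hy0.ne']
  have e3 : Real.log (|m| / d) + Real.log |y| + Real.log (1 - r / (m * y)) -
      (Real.log (|m| / d) + Real.log |y|) = Real.log (1 - r / (m * y)) := by ring
  rw [e3]
  exact hl.trans (by linarith)

/-- PACKAGE L4 -/
theorem growth (h1 : S_step1) : S_growth := by
  intro G C hC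
  have hd0 : 0 < G.d := by have := G.hd; omega
  have hd0' : (0 : ℝ) < G.d := by exact_mod_cast hd0
  obtain ⟨R, hRdef⟩ : ∃ R : ℝ, R = ∑ i ∈ range G.d, |(G.r i : ℝ)| + 1 := ⟨_, rfl⟩
  have hRs : ∀ i < G.d, |(G.r i : ℝ)| ≤ R := by
    intro i hi
    have := Finset.single_le_sum (f := fun i => |(G.r i : ℝ)|) (fun j _ => abs_nonneg _)
      (Finset.mem_range.2 hi)
    rw [hRdef]
    linarith
  have hR1 : 1 ≤ R := by
    have : 0 ≤ ∑ i ∈ range G.d, |(G.r i : ℝ)| := Finset.sum_nonneg fun i _ => abs_nonneg _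
    linarith
  refine ⟨max 1 (Real.log (2 * R)), ?_⟩
  intro lam a B x n hB hx ha hx0 hS hL
  have ha1 : 1 + Real.log (n + 1) ≤ a := le_trans (by gcongr; exact le_max_left _ _) ha
  have ha2 : Real.log (2 * R) + Real.log (n + 1) ≤ a :=
    le_trans (by gcongr; exact le_max_right _ _) ha
  have hn1 : (0 : ℝ) < n + 1 := by positivity
  have hln : 0 ≤ Real.log ((n : ℝ) + 1) := Real.log_nonneg (by
    have : (0 : ℝ) ≤ n := Nat.cast_nonneg n
    linarith)
  have hexp : 2 * R * (n + 1) ≤ Real.exp a := by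
    rw [← Real.exp_log (show (0 : ℝ) < 2 * R * (n + 1) by positivity),
      Real.log_mul (by positivity) hn1.ne']
    exact Real.exp_le_exp.2 ha2
  have key : ∀ l, l ≤ n → (T G)^[l] x ≠ 0 ∧
      |Real.log |(((T G)^[l] x : ℤ) : ℝ)| - (Real.log |(x : ℝ)| + S G (f1 G) B x l)| ≤
        l / (n + 1) := by
    intro l
    induction l with
    | zero =>
      intro _
      refine ⟨hx0, ?_⟩
      simp [S]
    | succ l ih =>
      intro hl
      obtain ⟨i1, i2⟩ := ih (by omega)
      obtain ⟨p1, p2⟩ := path h1 G hC hB hx l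
      obtain ⟨j1, j2⟩ := hC.state _ p1
      obtain ⟨s1, -, -, -⟩ := h1 G (Y G B x l) j1 j2
      have hst := s1 _ p2
      have hi : (Y G B x l).1 % G.d < G.d := Nat.mod_lt _ hd0
      obtain ⟨y, hy⟩ : ∃ y : ℤ, y = (T G)^[l] x := ⟨_, rfl⟩
      rw [Function.iterate_succ_apply']
      rw [← hy] at i1 i2 hst ⊢
      have hll : (l : ℝ) / (n + 1) ≤ 1 := by
        rw [div_le_one hn1]
        have : (l : ℝ) ≤ n := by exact_mod_cast (by omega : l ≤ n)
        linarith
      have i3 := abs_le.1 i2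
      have hS1 := abs_le.1 (hS l (by omega))
      have hL1 := hL l (by omega)
      have hy0 : (y : ℝ) ≠ 0 := by exact_mod_cast i1
      have hlog : a ≤ Real.log |(y : ℝ)| := by linarith [i3.1, hS1.1]
      have hyb : 2 * R * (n + 1) ≤ |(y : ℝ)| := by
        refine hexp.trans ?_
        rw [← Real.exp_log (abs_pos.2 hy0)]
        exact Real.exp_le_exp.2 hlog
      have hyb2 : 2 * R ≤ |(y : ℝ)| := by
        refine le_trans ?_ hyb
        have : (0 : ℝ) ≤ n := Nat.cast_nonneg n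
        nlinarith
      have hst' : (G.d : ℝ) * ((T G y : ℤ) : ℝ) =
          (G.m ((Y G B x l).1 % G.d) : ℝ) * (y : ℝ) - (G.r ((Y G B x l).1 % G.d) : ℝ) := by
        exact_mod_cast hst
      have hm1 : (1 : ℝ) ≤ |(G.m ((Y G B x l).1 % G.d) : ℝ)| := by
        have := Int.one_le_abs (G.hm _ hi)
        exact_mod_cast this
      obtain ⟨z1, z2⟩ := step_log hd0' hm1 hst' (hRs _ hi) hyb2 (by linarith)
      have hT0 : T G y ≠ 0 := by
        intro h
        apply z1
        rw [h]; simp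
      refine ⟨hT0, ?_⟩
      have hSs : S G (f1 G) B x (l + 1) = S G (f1 G) B x l + f1 G (Y G B x l) := by
        unfold S
        rw [Finset.sum_range_succ]
      have hf : f1 G (Y G B x l) = Real.log (|(G.m ((Y G B x l).1 % G.d) : ℝ)| / G.d) := rfl
      rw [hSs, hf]
      have hRy : 2 * (R / |(y : ℝ)|) ≤ 1 / (n + 1) := by
        have hyp : 0 < |(y : ℝ)| := abs_pos.2 hy0
        rw [← mul_div_assoc, div_le_div_iff₀ hyp hn1]
        linarith
      have z3 := abs_le.1 (z2.trans hRy)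
      have e : ((l + 1 : ℕ) : ℝ) / (n + 1) = l / (n + 1) + 1 / (n + 1) := by
        push_cast
        ring
      rw [e, abs_le]
      constructor <;> linarith [z3.1, z3.2, i3.1, i3.2]
  intro l hl
  obtain ⟨k1, k2⟩ := key l hl
  refine ⟨k1, ?_⟩
  have hll : (l : ℝ) / (n + 1) ≤ 1 := by
    rw [div_le_one hn1]
    have : (l : ℝ) ≤ n := by exact_mod_cast hl
    linarith
  have k3 := abs_le.1 k2
  have hS1 := abs_le.1 (hS l hl)
  rw [abs_le]
  constructor <;> linarith [k3.1, k3.2, hS1.1, hS1.2]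

end Pool.Agent.Helper38.LG
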